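import Pool.Agent.W425.BM.Stm

set_option autoImplicit false

/-! Part ALM of project BM: the algebra of the sum over the faces. -/

namespace Pool.Agent.W369.BM

open Pool.Agent.W425.BM Pool.Agent.W425.BF Pool.Agent.W428.MOT Pool.Agent.W375.MG
open Pool.Agent.W63.MTFin (ev C_mem X_mem)

variable {n k : ℕ} (m : Fin k → Fin n → ℕ) (i : Fin n) (J : Finset (Fin n))

theorem mem_free (τ : Finset (Fin k)) (x : Fin n) :
    x ∈ free (0 : Fin n → ℕ) m J τ ↔ x ∈ J ∧ ∀ j ∈ τ, m j x = 0 := by
  simp [free]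

theorem fc_lt (hi : i ∈ J) (τ : Finset (Fin k)) (j0 : Fin k) (h0 : j0 ∈ τ) (h1 : m j0 i = 1) :
    fc m J τ + 1 ≤ J.card := by
  have hsub : free (0 : Fin n → ℕ) m J τ ⊆ J.erase i := by
    intro x hx
    rw [mem_free] at hx
    refine Finset.mem_erase.2 ⟨?_, hx.1⟩
    rintro rfl
    have := hx.2 j0 h0
    omega
  have h2 := Finset.card_le_card hsub
  rw [Finset.card_erase_of_mem hi] at h2
  have h3 : 0 < J.card := Finset.card_pos.2 ⟨i, hi⟩
  unfold fc
  omega

theorem fc_bs (hi : i ∈ J) (τ : Finset (Fin k)) (j0 : Fin k) (h0 : j0 ∈ τ) (h1 : m j0 i = 1) :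
    fc m J τ + 1 ≤ fc m J (bs m i τ) := by
  have hmem : i ∈ free (0 : Fin n → ℕ) m J (bs m i τ) := by
    rw [mem_free]
    exact ⟨hi, fun j hj => (Finset.mem_filter.1 hj).2⟩
  have hsub : free (0 : Fin n → ℕ) m J τ ⊆ (free (0 : Fin n → ℕ) m J (bs m i τ)).erase i := by
    intro x hx
    rw [mem_free] at hx
    refine Finset.mem_erase.2 ⟨?_, ?_⟩
    · rintro rfl
      have := hx.2 j0 h0
      omega
    · rw [mem_free]
      exact ⟨hx.1, fun j hj => hx.2 j (Finset.mem_filter.1 hj).1⟩
  have h2 := Finset.card_le_card hsub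
  rw [Finset.card_erase_of_mem hmem] at h2
  have h3 : 0 < (free (0 : Fin n → ℕ) m J (bs m i τ)).card := Finset.card_pos.2 ⟨i, hmem⟩
  unfold fc
  omega

theorem bs_insert (j0 : Fin k) (τ0 : Finset (Fin k)) (h1 : m j0 i = 1)
    (h0 : ∀ l ∈ τ0, m l i = 0) : bs m i (insert j0 τ0) = τ0 := by
  ext l
  simp only [bs, Finset.mem_filter, Finset.mem_insert]
  constructor
  · rintro ⟨h | h, h2⟩
    · rw [h] at h2
      omega
    · exact h
  · intro h
    exact ⟨Or.inr h, h0 l h⟩

theorem isB1_insert (j0 : Fin k) (τ0 : Finset (Fin k)) (h1 : m j0 i = 1)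
    (h0 : ∀ l ∈ τ0, m l i = 0) (hne : τ0.Nonempty) : IsB1 m i (insert j0 τ0) := by
  have h := bs_insert m i j0 τ0 h1 h0
  refine ⟨by rw [h]; exact hne, j0, h1, by rw [h]⟩

theorem not_of_base (τ0 : Finset (Fin k)) (h0 : ∀ l ∈ τ0, m l i = 0) :
    ¬ IsB1 m i τ0 ∧ ¬ IsAp m i τ0 := by
  constructor
  · rintro ⟨-, j0, h1, h2⟩
    have h3 : j0 ∈ τ0 := by
      rw [h2]
      exact Finset.mem_insert_self _ _
    have := h0 j0 h3
    omega
  · rintro ⟨j0, h1, h2⟩
    have h3 : j0 ∈ τ0 := by
      rw [h2]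
      exact Finset.mem_singleton_self _
    have := h0 j0 h3
    omega

theorem not_b1_ap (τ : Finset (Fin k)) (h : IsAp m i τ) : ¬ IsB1 m i τ := by
  rintro ⟨⟨l, hl⟩, -⟩
  obtain ⟨j0, h1, h2⟩ := h
  have h3 := Finset.mem_filter.1 hl
  rw [h2, Finset.mem_singleton] at h3
  rw [h3.1] at h3
  omega

open Classical in
/-- the first family of coefficients -/
noncomputable def be1 (τ : Finset (Fin k)) : Polynomial (Polynomial ℤ) :=
  if IsAp m i τ then Polynomial.C ((1 - Polynomial.X) ^ (J.card - 1 - fc m J τ)) *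
    (1 - Polynomial.C Polynomial.X * Polynomial.X)
  else if IsB1 m i τ then Polynomial.C ((1 - Polynomial.X) ^ (J.card - 1 - fc m J τ))
  else 0

open Classical in
/-- the second family of coefficients -/
noncomputable def be2 (τ0 τ : Finset (Fin k)) : Polynomial (Polynomial ℤ) :=
  if τ = τ0 then 1
  else if IsB1 m i τ ∧ bs m i τ = τ0 then
    -Polynomial.C (Polynomial.X * (1 - Polynomial.X) ^ (fc m J τ0 - 1 - fc m J τ))
  else 0

theorem rel1 (hi : i ∈ J) (p : ℕ) : Rel m i p ((1 - (p : ℂ)⁻¹) ^ (J.card - 1))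
    (gb m J (be1 m i J) p) := by
  constructor
  · intro j0 h1
    have hap : IsAp m i {j0} := ⟨j0, h1, rfl⟩
    have hf := fc_lt m i J hi {j0} j0 (Finset.mem_singleton_self _) h1
    unfold gb be1
    rw [if_pos hap]
    have e : J.card - 1 = fc m J {j0} + (J.card - 1 - fc m J {j0}) := by omega
    simp only [Polynomial.map_mul, Polynomial.map_pow, Polynomial.map_sub, Polynomial.map_one, Polynomial.map_C,
      Polynomial.map_X, map_pow, map_sub, map_one, Polynomial.coe_eval₂RingHom,
      Polynomial.eval₂_X, Polynomial.eval₂_sub, Polynomial.eval₂_one, Polynomial.eval₂_pow]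
    conv_rhs => rw [e, pow_add]
    ring
  · intro j0 τ0 h1 h0 hne
    have hb := isB1_insert m i j0 τ0 h1 h0 hne
    have hnap : ¬ IsAp m i (insert j0 τ0) := fun h => not_b1_ap m i _ h hb
    obtain ⟨hn1, hn2⟩ := not_of_base m i τ0 h0
    have hf := fc_lt m i J hi (insert j0 τ0) j0 (Finset.mem_insert_self _ _) h1
    unfold gb be1
    rw [if_neg hnap, if_pos hb, if_neg hn2, if_neg hn1]
    have e : J.card - 1 = fc m J (insert j0 τ0) + (J.card - 1 - fc m J (insert j0 τ0)) := by
      omega
    simp only [Polynomial.map_mul, Polynomial.map_pow, Polynomial.map_sub, Polynomial.map_one, Polynomial.map_C,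
      Polynomial.map_X, map_pow, map_sub, map_one, Polynomial.coe_eval₂RingHom,
      Polynomial.eval₂_X, Polynomial.eval₂_sub, Polynomial.eval₂_one, Polynomial.eval₂_pow,
      Polynomial.map_zero, mul_zero, add_zero, map_mul]
    conv_rhs => rw [e, pow_add]

theorem rel2 (hi : i ∈ J) (p : ℕ) (hp : 2 ≤ p) (σ : Finset (Fin k)) (hσ1 : ¬ IsB1 m i σ)
    (hσ2 : ¬ IsAp m i σ) : Rel m i p 0 (gb m J (be2 m i J σ) p) := by
  have hp0 : (p : ℂ) ≠ 0 := by
    have : p ≠ 0 := by omega
    exact_mod_cast this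
  constructor
  · intro j0 h1
    have hap : IsAp m i {j0} := ⟨j0, h1, rfl⟩
    have hne : ({j0} : Finset (Fin k)) ≠ σ := by
      rintro rfl
      exact hσ2 hap
    unfold gb be2
    rw [if_neg hne, if_neg (fun h => not_b1_ap m i _ hap h.1)]
    simp
  · intro j0 τ0 h1 h0 hne
    have hb := isB1_insert m i j0 τ0 h1 h0 hne
    have hbs := bs_insert m i j0 τ0 h1 h0
    obtain ⟨hn1, hn2⟩ := not_of_base m i τ0 h0
    have hins : insert j0 τ0 ≠ σ := by
      rintro rfl
      exact hσ1 hb
    unfold gb be2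
    rw [if_neg hins, hbs]
    by_cases h : τ0 = σ
    · subst h
      have hf := fc_bs m i J hi (insert j0 τ0) j0 (Finset.mem_insert_self _ _) h1
      rw [hbs] at hf
      rw [if_pos ⟨hb, rfl⟩, if_pos rfl]
      have e : fc m J τ0 = fc m J (insert j0 τ0) +
          (fc m J τ0 - 1 - fc m J (insert j0 τ0)) + 1 := by omega
      have key : ((p : ℂ) - 1) * (p : ℂ)⁻¹ = 1 - (p : ℂ)⁻¹ := by
        field_simp
      simp only [Polynomial.map_mul, Polynomial.map_pow, Polynomial.map_sub, Polynomial.map_one, Polynomial.map_C,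
        Polynomial.map_neg, Polynomial.coe_eval₂RingHom, Polynomial.eval₂_mul,
        Polynomial.eval₂_X, Polynomial.eval₂_sub, Polynomial.eval₂_one, Polynomial.eval₂_pow,
        mul_one, mul_zero, Polynomial.C_0]
      have e2 : (1 - (p : ℂ)⁻¹) ^ fc m J τ0 = (1 - (p : ℂ)⁻¹) ^ fc m J (insert j0 τ0) *
          (1 - (p : ℂ)⁻¹) ^ (fc m J τ0 - 1 - fc m J (insert j0 τ0)) *
          (((p : ℂ) - 1) * (p : ℂ)⁻¹) := by
        rw [key, ← pow_add, ← pow_succ, ← e]
      rw [e2]
      simp only [map_mul]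
      ring
    · rw [if_neg (fun h' => h h'.2), if_neg h, if_neg (fun h' => hn1 h'.1)]
      simp

theorem main : TaskALM := by
  classical
  intro K _ n k m i J hi S hS hβ L Y ε hLY hev x0 x1 hrel
  obtain ⟨hAp, hB1⟩ := hrel
  have hX : ev K Polynomial.X = Y := by rw [hev, Polynomial.eval₂_X]
  have hL1 : L - 1 = L * (1 - Y) := by rw [mul_sub, mul_one, hLY]
  set c : Finset (Fin k) → PowerSeries (MK K) := fun τ => PowerSeries.map (ev K) (Cs m J τ)
    with hc
  set κ : Finset (Fin k) → PowerSeries (MK K) := fun τ => PowerSeries.C (L ^ fc m J τ) *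
    (PowerSeries.C (x0 τ) * (1 - PowerSeries.C Y * PowerSeries.X) +
      PowerSeries.C (x1 τ) * (PowerSeries.C Y * PowerSeries.X)) with hκ
  set e : Polynomial (Polynomial ℤ) → PowerSeries (MK K) := fun P =>
    PowerSeries.map (ev K) (P : PowerSeries (Polynomial ℤ)) with he
  have hΦ : ∀ β : Finset (Fin k) → Polynomial (Polynomial ℤ),
      PowerSeries.map (ev K) (cmb m J β) = ∑ τ, e (β τ) * c τ := by
    intro β
    unfold cmb
    rw [map_sum]
    refine Finset.sum_congr rfl fun τ _ => ?_
    rw [map_mul]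
  have hpow : ∀ a b : ℕ, a + 1 ≤ b → L ^ a * (L - 1) ^ (b - 1 - a) =
      L ^ (b - 1) * (1 - Y) ^ (b - 1 - a) := by
    intro a b hab
    rw [hL1, mul_pow, ← mul_assoc, ← pow_add]
    congr 2
    omega
  have hpow2 : ∀ a b : ℕ, a + 1 ≤ b → L ^ a * (L - 1) ^ (b - 1 - a) =
      L ^ b * (Y * (1 - Y) ^ (b - 1 - a)) := by
    intro a b hab
    rw [hpow a b hab]
    have e1 : L ^ b = L ^ (b - 1) * L := by
      rw [← pow_succ]
      congr 1
      omega
    rw [e1]
    calc L ^ (b - 1) * (1 - Y) ^ (b - 1 - a)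
        = L ^ (b - 1) * (L * Y) * (1 - Y) ^ (b - 1 - a) := by rw [hLY, mul_one]
      _ = _ := by ring
  set Q : PowerSeries (MK K) := PowerSeries.C (ε * L ^ (J.card - 1)) with hQ
  have hid : ∀ τ : Finset (Fin k), κ τ = Q * e (be1 m i J τ) +
      ∑ σ ∈ Finset.univ.filter (fun σ : Finset (Fin k) => ¬ IsAp m i σ ∧ ¬ IsB1 m i σ),
        κ σ * e (be2 m i J σ τ) := by
    intro τ
    by_cases hap : IsAp m i τ
    · have hnb := not_b1_ap m i τ hap
      have h0 : ∑ σ ∈ Finset.univ.filter (fun σ : Finset (Fin k) =>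
          ¬ IsAp m i σ ∧ ¬ IsB1 m i σ), κ σ * e (be2 m i J σ τ) = 0 := by
        refine Finset.sum_eq_zero fun σ hσ => ?_
        have hσ' := (Finset.mem_filter.1 hσ).2
        have hne : τ ≠ σ := by
          rintro rfl
          exact hσ'.1 hap
        have : be2 m i J σ τ = 0 := by
          unfold be2
          rw [if_neg hne, if_neg (fun h => hnb h.1)]
        rw [this]
        simp [he]
      rw [h0, add_zero]
      obtain ⟨j0, h1, h2⟩ := hap
      have hf := fc_lt m i J hi τ j0 (by rw [h2]; exact Finset.mem_singleton_self _) h1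
      obtain ⟨e1, e2⟩ := hAp τ ⟨j0, h1, h2⟩
      have e3 : e (be1 m i J τ) = PowerSeries.C ((1 - Y) ^ (J.card - 1 - fc m J τ)) *
          (1 - PowerSeries.C Y * PowerSeries.X) := by
        unfold be1
        rw [if_pos ⟨j0, h1, h2⟩]
        simp only [he, Polynomial.coe_mul, Polynomial.coe_sub, Polynomial.coe_C, Polynomial.coe_pow,
          Polynomial.coe_one, Polynomial.coe_X, map_mul, map_sub, map_one, map_pow,
          PowerSeries.map_C, PowerSeries.map_X, hX]
      rw [e3]
      simp only [hκ]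
      rw [e1, e2, map_zero, zero_mul, add_zero, ← mul_assoc, ← mul_assoc, hQ, ← map_mul,
        ← map_mul]
      congr 2
      calc L ^ fc m J τ * (ε * (L - 1) ^ (J.card - 1 - fc m J τ))
          = ε * (L ^ fc m J τ * (L - 1) ^ (J.card - 1 - fc m J τ)) := by ring
        _ = _ := by
          rw [hpow _ _ hf]
          ring
    · by_cases hb : IsB1 m i τ
      · have hb' := hb
        obtain ⟨hne0, j0, h1, h2⟩ := hb'
        have hj0 : j0 ∈ τ := by
          rw [h2]
          exact Finset.mem_insert_self _ _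
        have hf := fc_lt m i J hi τ j0 hj0 h1
        have hf2 := fc_bs m i J hi τ j0 hj0 h1
        obtain ⟨e1, e2⟩ := hB1 τ hb
        have hbase : ∀ l ∈ bs m i τ, m l i = 0 := fun l hl => (Finset.mem_filter.1 hl).2
        obtain ⟨hn1, hn2⟩ := not_of_base m i (bs m i τ) hbase
        have h0 : ∑ σ ∈ Finset.univ.filter (fun σ : Finset (Fin k) =>
            ¬ IsAp m i σ ∧ ¬ IsB1 m i σ), κ σ * e (be2 m i J σ τ) =
            κ (bs m i τ) * e (be2 m i J (bs m i τ) τ) := by
          refine Finset.sum_eq_single (bs m i τ) ?_ ?_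
          · intro σ hσ hne
            have hσ' := (Finset.mem_filter.1 hσ).2
            have hne' : τ ≠ σ := by
              rintro rfl
              exact hσ'.2 hb
            have : be2 m i J σ τ = 0 := by
              unfold be2
              rw [if_neg hne', if_neg (fun h => hne h.2.symm)]
            rw [this]
            simp [he]
          · intro h
            exact absurd (Finset.mem_filter.2 ⟨Finset.mem_univ _, hn2, hn1⟩) h
        have hne2 : τ ≠ bs m i τ := by
          intro h
          rw [h] at hb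
          exact hn1 hb
        have e3 : e (be2 m i J (bs m i τ) τ) = -PowerSeries.C (Y *
            (1 - Y) ^ (fc m J (bs m i τ) - 1 - fc m J τ)) := by
          unfold be2
          rw [if_neg hne2, if_pos ⟨hb, rfl⟩]
          simp only [he, Polynomial.coe_neg, Polynomial.coe_C, Polynomial.coe_pow,
            Polynomial.coe_mul, Polynomial.coe_sub, Polynomial.coe_one, map_neg, map_mul, map_sub,
            map_one, map_pow, PowerSeries.map_C, hX]
        have e4 : e (be1 m i J τ) = PowerSeries.C ((1 - Y) ^ (J.card - 1 - fc m J τ)) := by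
          unfold be1
          rw [if_neg hap, if_pos hb]
          simp only [he, Polynomial.coe_C, Polynomial.coe_pow, Polynomial.coe_sub,
            Polynomial.coe_one, map_sub, map_one, map_pow, PowerSeries.map_C, hX]
        rw [h0, e3, e4]
        have g0 : L ^ fc m J τ * x0 τ = ε * L ^ (J.card - 1) *
            (1 - Y) ^ (J.card - 1 - fc m J τ) - Y *
            (1 - Y) ^ (fc m J (bs m i τ) - 1 - fc m J τ) *
            (L ^ fc m J (bs m i τ) * x0 (bs m i τ)) := by
          have := eq_sub_of_add_eq e1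
          rw [this, mul_sub]
          have q1 := hpow _ _ hf
          have q2 := hpow2 _ _ hf2
          linear_combination ε * q1 - x0 (bs m i τ) * q2
        have g1 : L ^ fc m J τ * x1 τ = ε * L ^ (J.card - 1) *
            (1 - Y) ^ (J.card - 1 - fc m J τ) - Y *
            (1 - Y) ^ (fc m J (bs m i τ) - 1 - fc m J τ) *
            (L ^ fc m J (bs m i τ) * x1 (bs m i τ)) := by
          have := eq_sub_of_add_eq e2
          rw [this, mul_sub]
          have q1 := hpow _ _ hf
          have q2 := hpow2 _ _ hf2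
          linear_combination ε * q1 - x1 (bs m i τ) * q2
        have k0 : PowerSeries.C (L ^ fc m J τ) * PowerSeries.C (x0 τ) =
            Q * PowerSeries.C ((1 - Y) ^ (J.card - 1 - fc m J τ)) - PowerSeries.C (Y *
            (1 - Y) ^ (fc m J (bs m i τ) - 1 - fc m J τ)) *
            (PowerSeries.C (L ^ fc m J (bs m i τ)) * PowerSeries.C (x0 (bs m i τ))) := by
          rw [hQ, ← map_mul, ← map_mul, ← map_mul, ← map_mul, ← map_sub, g0]
        have k1 : PowerSeries.C (L ^ fc m J τ) * PowerSeries.C (x1 τ) =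
            Q * PowerSeries.C ((1 - Y) ^ (J.card - 1 - fc m J τ)) - PowerSeries.C (Y *
            (1 - Y) ^ (fc m J (bs m i τ) - 1 - fc m J τ)) *
            (PowerSeries.C (L ^ fc m J (bs m i τ)) * PowerSeries.C (x1 (bs m i τ))) := by
          rw [hQ, ← map_mul, ← map_mul, ← map_mul, ← map_mul, ← map_sub, g1]
        simp only [hκ]
        linear_combination (1 - PowerSeries.C Y * PowerSeries.X) * k0 +
          (PowerSeries.C Y * PowerSeries.X) * k1
      · have h0 : ∑ σ ∈ Finset.univ.filter (fun σ : Finset (Fin k) =>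
            ¬ IsAp m i σ ∧ ¬ IsB1 m i σ), κ σ * e (be2 m i J σ τ) =
            κ τ * e (be2 m i J τ τ) := by
          refine Finset.sum_eq_single τ ?_ ?_
          · intro σ hσ hne
            have : be2 m i J σ τ = 0 := by
              unfold be2
              rw [if_neg hne.symm, if_neg (fun h => hb h.1)]
            rw [this]
            simp [he]
          · intro h
            exact absurd (Finset.mem_filter.2 ⟨Finset.mem_univ _, hap, hb⟩) h
        have e3 : e (be2 m i J τ τ) = 1 := by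
          unfold be2
          rw [if_pos rfl]
          simp [he]
        have e4 : e (be1 m i J τ) = 0 := by
          unfold be1
          rw [if_neg hap, if_neg hb]
          simp [he]
        rw [h0, e3, e4, mul_zero, zero_add, mul_one]
  have hsum : (∑ τ : Finset (Fin k), κ τ * c τ) = Q * PowerSeries.map (ev K)
      (cmb m J (be1 m i J)) +
      ∑ σ ∈ Finset.univ.filter (fun σ : Finset (Fin k) => ¬ IsAp m i σ ∧ ¬ IsB1 m i σ),
        κ σ * PowerSeries.map (ev K) (cmb m J (be2 m i J σ)) := by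
    rw [hΦ, Finset.mul_sum]
    simp_rw [hΦ, Finset.mul_sum]
    rw [Finset.sum_comm, ← Finset.sum_add_distrib]
    refine Finset.sum_congr rfl fun τ _ => ?_
    rw [hid τ, add_mul, Finset.sum_mul]
    congr 1
    · ring
    · refine Finset.sum_congr rfl fun σ _ => ?_
      ring
  have hmemκ : ∀ σ, κ σ ∈ ratRing K S := by
    intro σ
    exact (ratRing K S).mul_mem (C_mem S _) ((ratRing K S).add_mem
      ((ratRing K S).mul_mem (C_mem S _) ((ratRing K S).sub_mem (ratRing K S).one_mem
        ((ratRing K S).mul_mem (C_mem S _) (X_mem S))))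
      ((ratRing K S).mul_mem (C_mem S _) ((ratRing K S).mul_mem (C_mem S _) (X_mem S))))
  change (∑ τ : Finset (Fin k), κ τ * c τ) ∈ ratRing K S
  rw [hsum]
  refine (ratRing K S).add_mem ((ratRing K S).mul_mem (C_mem S _)
    (hβ _ fun p hp => ⟨_, rel1 m i J hi p⟩)) ?_
  refine (ratRing K S).sum_mem fun σ hσ => ?_
  have hσ' := (Finset.mem_filter.1 hσ).2
  exact (ratRing K S).mul_mem (hmemκ σ)
    (hβ _ fun p hp => ⟨_, rel2 m i J hi p hp σ hσ'.2 hσ'.1⟩)

end Pool.Agent.W369.BM
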